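import Pool.Agent.Lib.MP_db3298_pr.Examples

/-!
Q1: stability depends on the initial state, for the tie-breaking rules always left
(`side = true`) and always right (`side = false`).
-/

set_option autoImplicit false

open MeasureTheory Pool.Agent.Lib.MP_db3298_pr

namespace Pool.Agent.Lib.MP_db3298_pr.Old.InitialState

theorem result : ∀ side : Bool, ∃ (lam : ℝ) (Fl Fr : Measure ℝ) (w w' : Fin 3 → ℝ),
    0 < lam ∧ ServiceLaw Fl ∧ ServiceLaw Fr ∧ (∀ i, 0 ≤ w i) ∧ (∀ i, 0 ≤ w' i) ∧
    StableFrom lam Fl Fr (fun _ _ _ => side) w ∧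
    ¬ StableFrom lam Fl Fr (fun _ _ _ => side) w' := by
  intro side
  cases side
  · obtain ⟨L, hL, h⟩ := unstable_diag (a := 1) (b := 2) one_pos two_pos (by norm_num) le_rfl
      false chk_U12
    exact ⟨19 / 10, Measure.dirac 1, Measure.dirac 2, 0, fun _ => L, by norm_num,
      serviceLaw_dirac one_pos, serviceLaw_dirac two_pos, fun _ => le_rfl, fun _ => hL.le,
      stable_12 (tieMeas_const _), by simpa using h⟩
  · obtain ⟨L, hL, h⟩ := unstable_diag (a := 2) (b := 1) two_pos one_pos le_rfl (by norm_num)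
      true chk_U21
    exact ⟨19 / 10, Measure.dirac 2, Measure.dirac 1, 0, fun _ => L, by norm_num,
      serviceLaw_dirac two_pos, serviceLaw_dirac one_pos, fun _ => le_rfl, fun _ => hL.le,
      stable_21 (tieMeas_const _), by simpa using h⟩

end Pool.Agent.Lib.MP_db3298_pr.Old.InitialState
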